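import Pool.Agent.W528.HC.Stm

set_option autoImplicit false

namespace Pool.Agent.W924.HC.PR

open Finset Pool.Agent.W528.HA Pool.Agent.W528.HB

lemma kv_zero {L R : Type} [Field L] [CommRing R] {N : ℕ} {z : L} (hz : z ≠ 0) (μ : R) :
    kv N z μ 0 = 0 := by
  unfold kv
  apply sum_eq_zero
  intro i _
  rw [if_neg]
  intro h
  exact pow_ne_zero i hz h.symm

lemma kv_pow {L R : Type} [Field L] [CommRing R] {N : ℕ} (hN : 0 < N) {z : L}
    (hz : IsPrimitiveRoot z N) {μ : R} (hμ : μ ^ N = 1) (e : ℕ) : kv N z μ (z ^ e) = μ ^ e := by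
  classical
  have h1 : z ^ e = z ^ (e % N) := by
    conv_lhs => rw [← Nat.mod_add_div e N, pow_add, pow_mul, hz.pow_eq_one, one_pow, mul_one]
  have h2 : μ ^ e = μ ^ (e % N) := by
    conv_lhs => rw [← Nat.mod_add_div e N, pow_add, pow_mul, hμ, one_pow, mul_one]
  have hm := Nat.mod_lt e hN
  rw [h1, h2]
  unfold kv
  rw [sum_eq_single (e % N)]
  · rw [if_pos rfl]
  · intro i' hi' hne
    rw [if_neg]
    intro h
    exact hne (hz.pow_inj (mem_range.mp hi') hm h.symm)
  · intro h
    exact absurd (mem_range.mpr hm) h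

/-- the number of roots -/
lemma ncard_roots {L : Type} [Field L] {p : ℕ} {η : L} (hp : 0 < p) (hη : IsPrimitiveRoot η p)
    {v : L} (hv : v ≠ 0) [Decidable (∃ α, α ^ p = v)] :
    Set.ncard {y : L | y ^ p = v} = if ∃ α, α ^ p = v then p else 0 := by
  classical
  have h1 : {y : L | y ^ p = v} = ((Polynomial.nthRoots p v).toFinset : Set L) := by
    ext y
    rw [Set.mem_setOf_eq, mem_coe, Multiset.mem_toFinset, Polynomial.mem_nthRoots hp]
  rw [h1, Set.ncard_coe_finset, Multiset.toFinset_card_of_nodup (hη.nthRoots_nodup hv),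
    hη.card_nthRoots]
  split_ifs <;> rfl

theorem main : Pool.Agent.W528.HC.PR := by
  intro L _ _ N p r z hN hz hp hr R _ _ μ hμ v
  classical
  subst hN
  have hN : 0 < p * r := Nat.mul_pos hp hr
  have hz0 : z ≠ 0 := hz.ne_zero (by omega)
  have hd := dvd_card_of_root hz hN
  have hQ := Fintype.one_lt_card (α := L)
  obtain ⟨w, hw⟩ : ∃ w, w = (Fintype.card L - 1) / (p * r) := ⟨_, rfl⟩
  have hwN : w * (p * r) = Fintype.card L - 1 := by rw [hw, Nat.div_mul_cancel hd]
  have hw0 : 0 < w := by
    rcases Nat.eq_zero_or_pos w with h | h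
    · rw [h] at hwN
      omega
    · exact h
  rw [← hw]
  by_cases hv : v = 0
  · subst hv
    have h1 : {y : L | y ^ p = 0} = {0} := by
      ext y
      simp [hp.ne']
    rw [h1, Set.ncard_singleton, sum_eq_zero]
    · simp
    · intro j hj
      rw [mem_Ico] at hj
      rw [zero_pow (Nat.mul_pos hr (by omega)).ne', zero_pow hw0.ne', kv_zero hz0]
  · have hvw : (v ^ w) ^ (p * r) = 1 := by
      rw [← pow_mul, hwN, FiniteField.pow_card_sub_one_eq_one v hv]
    have : NeZero (p * r) := ⟨by omega⟩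
    obtain ⟨k, hk, hkz⟩ := hz.eq_pow_of_pow_eq_one hvw
    have hterm : ∀ j, kv (p * r) z μ ((v ^ (r * j)) ^ w) = (μ ^ (k * r)) ^ j := by
      intro j
      have e1 : (v ^ (r * j)) ^ w = z ^ (k * r * j) := by
        rw [← pow_mul, mul_comm (r * j) w, pow_mul, ← hkz, ← pow_mul, mul_assoc]
      rw [e1, kv_pow hN hz hμ.pow_eq_one, pow_mul]
    have hrhs : 1 + ∑ j ∈ Ico 1 p, kv (p * r) z μ ((v ^ (r * j)) ^ w) =
        ∑ j ∈ range p, (μ ^ (k * r)) ^ j := by
      rw [range_eq_Ico, sum_eq_sum_Ico_succ_bot hp, pow_zero, zero_add]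
      congr 1
      exact sum_congr rfl fun j _ => hterm j
    rw [hrhs]
    have hη : IsPrimitiveRoot (z ^ r) p := hz.pow hN (mul_comm p r)
    rw [ncard_roots hp hη hv]
    have hiff : (∃ α, α ^ p = v) ↔ p ∣ k := by
      constructor
      · rintro ⟨α, hα⟩
        have hα0 : α ≠ 0 := by
          rintro rfl
          rw [zero_pow hp.ne'] at hα
          exact hv hα.symm
        have h1 : z ^ (k * r) = 1 := by
          rw [pow_mul, hkz, ← hα, ← pow_mul, ← pow_mul]
          have : p * (w * r) = Fintype.card L - 1 := by rw [← hwN]; ring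
          rw [this, FiniteField.pow_card_sub_one_eq_one α hα0]
        exact Nat.dvd_of_mul_dvd_mul_right hr (hz.dvd_of_pow_eq_one _ h1)
      · rintro ⟨k', rfl⟩
        obtain ⟨g, hg⟩ := IsCyclic.exists_monoid_generator (α := Lˣ)
        obtain ⟨e, he⟩ := hg (Units.mk0 v hv)
        change g ^ e = Units.mk0 v hv at he
        have hog : orderOf g = Fintype.card L - 1 := by
          rw [← Fintype.card_units, ← Nat.card_eq_fintype_card]
          refine orderOf_eq_card_of_forall_mem_powers hg
        have h2 : g ^ (e * (w * r)) = 1 := by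
          apply Units.ext
          rw [pow_mul, he, Units.val_pow_eq_pow_val, Units.val_mk0, Units.val_one, pow_mul, ← hkz,
            ← pow_mul]
          have : p * k' * r = p * r * k' := by ring
          rw [this, pow_mul, hz.pow_eq_one, one_pow]
        have h3 := orderOf_dvd_of_pow_eq_one h2
        rw [hog, ← hwN] at h3
        have h4 : w * (p * r) = p * (w * r) := by ring
        rw [h4] at h3
        have h5 : p ∣ e := Nat.dvd_of_mul_dvd_mul_right (Nat.mul_pos hw0 hr) h3
        obtain ⟨f, rfl⟩ := h5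
        refine ⟨((g ^ f : Lˣ) : L), ?_⟩
        rw [← Units.val_pow_eq_pow_val, ← pow_mul, mul_comm f p, he, Units.val_mk0]
    by_cases hpk : p ∣ k
    · rw [if_pos (hiff.2 hpk)]
      obtain ⟨k', rfl⟩ := hpk
      have : μ ^ (p * k' * r) = 1 := by
        have e : p * k' * r = p * r * k' := by ring
        rw [e, pow_mul, hμ.pow_eq_one, one_pow]
      simp [this]
    · rw [if_neg (fun h => hpk (hiff.1 h))]
      have hne : μ ^ (k * r) ≠ 1 := by
        intro h
        exact hpk (Nat.dvd_of_mul_dvd_mul_right hr (hμ.dvd_of_pow_eq_one _ h))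
      have h1 := mul_geom_sum (μ ^ (k * r)) p
      have h2 : (μ ^ (k * r)) ^ p = 1 := by
        rw [← pow_mul]
        have e : k * r * p = p * r * k := by ring
        rw [e, pow_mul, hμ.pow_eq_one, one_pow]
      rw [h2, sub_self, mul_eq_zero] at h1
      rcases h1 with h1 | h1
      · exact absurd (sub_eq_zero.1 h1) hne
      · rw [h1, Nat.cast_zero]

end Pool.Agent.W924.HC.PR
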