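import Pool.Agent.W845.HC.Base

set_option autoImplicit false
open scoped Classical
open scoped BigOperators

namespace Pool.Agent.W924.HC

open Pool.Agent.W845.PM Pool.Agent.W845.HC

theorem darts {V : Type} [Fintype V] (G : SimpleGraph V) :
    (Finset.univ.filter (fun e : V × V => G.Adj e.1 e.2)).card = 2 * ec G := by
  have h1 := G.sum_degrees_eq_twice_card_edges
  have h2 : ec G = G.edgeFinset.card := by
    unfold ec
    rw [Set.ncard_eq_toFinset_card']
    rfl
  rw [h2, ← h1, Finset.card_filter, Fintype.sum_prod_type]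
  refine Finset.sum_congr rfl fun v _ => ?_
  rw [← Finset.card_filter]
  simp only
  rw [← SimpleGraph.card_neighborFinset_eq_degree, SimpleGraph.neighborFinset_eq_filter]

theorem arcs_le {V : Type} [Fintype V] (G G' : SimpleGraph V) (h : G' ≤ G) (X Y : Finset V) :
    arcs G X Y + 2 * ec G' ≤ arcs G' X Y + 2 * ec G := by
  rw [← darts G, ← darts G']
  have h1 : (Finset.univ.filter (fun e : V × V => G'.Adj e.1 e.2)) ⊆
      (Finset.univ.filter (fun e : V × V => G.Adj e.1 e.2)) := by
    intro e he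
    simp only [Finset.mem_filter, Finset.mem_univ, true_and] at he ⊢
    exact h he
  have h2 := Finset.card_sdiff_add_card_eq_card h1
  have h3 : arcs G X Y ≤ arcs G' X Y +
      ((Finset.univ.filter (fun e : V × V => G.Adj e.1 e.2)) \
        (Finset.univ.filter (fun e : V × V => G'.Adj e.1 e.2))).card := by
    unfold arcs
    refine le_trans (Finset.card_le_card ?_) (Finset.card_union_le _ _)
    intro e he
    simp only [Finset.mem_filter, Finset.mem_univ, true_and, Finset.mem_union,
      Finset.mem_sdiff] at he ⊢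
    tauto
  omega

theorem dual : S_LAM → S_FLOW → S_HALF → S_BREAK → S_GIRTH → S_DUAL := by
  intro hLAM hFLOW hHALF hBREAK hGIRTH V _ G L x hx
  obtain ⟨G', hle, hec, hNS⟩ := hGIRTH V G L
  obtain ⟨M, hMA, hM1, hM2, X, Y, hXY⟩ := hFLOW V G'.Adj
  obtain ⟨F, hF, hFd, hFM⟩ := hHALF V G' L M hNS hMA hM1 hM2
  obtain ⟨F', hF', hLF, hFF⟩ := hBREAK V F L (fun E hE => hNS E (hE.trans hF)) hFd
  have h1 := hLAM.2.1 V G F' (hF'.trans (hF.trans hle)) hLF
  have h2 := arcs_le G G' hle X Y
  have h3 : 2 * X.card + 2 * Y.card + arcs G' X Y ≤ M.card := hXY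
  have h4 := hx X Y
  have h1' : (ec F' : ℝ) ≤ lam G := by exact_mod_cast h1
  have h5 : 2 * X.card + 2 * Y.card + arcs G X Y ≤ M.card + 2 * cyc L G := by omega
  have h5' : 2 * (X.card : ℝ) + 2 * (Y.card : ℝ) + (arcs G X Y : ℝ) ≤
      (M.card : ℝ) + 2 * (cyc L G : ℝ) := by exact_mod_cast h5
  have e : 2 * (Fintype.card V : ℝ) / (L + 3) = 2 * ((Fintype.card V : ℝ) / (L + 3)) := by ring
  rw [e] at hFM ⊢
  linarith

end Pool.Agent.W924.HC
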